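import Mathlib

set_option autoImplicit false

namespace Pool.Agent.H281R2.Cond

open Finset

variable {n : ℕ}

/-- indicator that `x` is among the first `u` entries of `σ` -/
def chi (σ : Equiv.Perm (Fin n)) (u : ℕ) (x : Fin n) : ℤ :=
  if (σ.symm x).val < u then 1 else 0

/-- crossing number at level `u` -/
def cr (σ τ : Equiv.Perm (Fin n)) (u : ℕ) : ℤ := ∑ x, chi σ u x * (1 - chi τ u x)

/-- adjacent transposition of the positions `v` and `v+1` -/
def sw (n v : ℕ) : Equiv.Perm (Fin n) :=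
  if h : v + 1 < n then Equiv.swap ⟨v, by omega⟩ ⟨v + 1, h⟩ else 1

lemma sw_eq {v : ℕ} (h : v + 1 < n) :
    sw n v = Equiv.swap (⟨v, by omega⟩ : Fin n) ⟨v + 1, h⟩ := by
  unfold sw; rw [dif_pos h]

lemma sw_mul_self (v : ℕ) : sw n v * sw n v = 1 := by
  unfold sw
  split_ifs
  · exact Equiv.swap_mul_self _ _
  · rfl

lemma sw_symm_apply (σ : Equiv.Perm (Fin n)) (v : ℕ) (x : Fin n) :
    (σ * sw n v).symm x = sw n v (σ.symm x) := by
  apply (σ * sw n v).injective
  rw [Equiv.apply_symm_apply]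
  simp only [Equiv.Perm.mul_apply]
  have : sw n v (sw n v (σ.symm x)) = σ.symm x := by
    rw [← Equiv.Perm.mul_apply, sw_mul_self]; rfl
  rw [this, Equiv.apply_symm_apply]

lemma sw_val_lt {v u : ℕ} (h : v + 1 < n) (hu : u ≠ v + 1) (i : Fin n) :
    (sw n v i).val < u ↔ i.val < u := by
  rw [sw_eq h, Equiv.swap_apply_def]
  split_ifs with h1 h2
  · subst h1; simp only; omega
  · subst h2; simp only; omega
  · rfl

lemma chi_sw_ne {v u : ℕ} (h : v + 1 < n) (hu : u ≠ v + 1) (σ : Equiv.Perm (Fin n)) (x : Fin n) :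
    chi (σ * sw n v) u x = chi σ u x := by
  unfold chi
  rw [sw_symm_apply]
  simp only [sw_val_lt h hu]

lemma chi_succ {v : ℕ} (h : v < n) (σ : Equiv.Perm (Fin n)) (x : Fin n) :
    chi σ (v + 1) x = chi σ v x + if x = σ ⟨v, h⟩ then 1 else 0 := by
  unfold chi
  by_cases hx : x = σ ⟨v, h⟩
  · subst hx
    simp
  · rw [if_neg hx]
    have : (σ.symm x).val ≠ v := by
      intro h1
      apply hx
      have h2 : σ.symm x = ⟨v, h⟩ := Fin.ext h1
      rw [← h2, Equiv.apply_symm_apply]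
    by_cases h3 : (σ.symm x).val < v
    · rw [if_pos h3, if_pos (by omega)]; ring
    · rw [if_neg h3, if_neg (by omega)]; ring

lemma chi_sw_eq {v : ℕ} (h : v + 1 < n) (σ : Equiv.Perm (Fin n)) (x : Fin n) :
    chi (σ * sw n v) (v + 1) x = chi σ v x + if x = σ ⟨v + 1, h⟩ then 1 else 0 := by
  rw [chi_succ (by omega : v < n), chi_sw_ne h (by omega)]
  congr 2
  rw [Equiv.Perm.mul_apply, sw_eq h, Equiv.swap_apply_left]

lemma chi_nonneg (σ : Equiv.Perm (Fin n)) (u : ℕ) (x : Fin n) : 0 ≤ chi σ u x := by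
  unfold chi; split_ifs <;> norm_num

lemma chi_le_one (σ : Equiv.Perm (Fin n)) (u : ℕ) (x : Fin n) : chi σ u x ≤ 1 := by
  unfold chi; split_ifs <;> norm_num

lemma cr_nonneg (σ τ : Equiv.Perm (Fin n)) (u : ℕ) : 0 ≤ cr σ τ u := by
  apply Finset.sum_nonneg
  intro x _
  exact mul_nonneg (chi_nonneg _ _ _) (by linarith [chi_le_one τ u x])

lemma cr_zero (σ τ : Equiv.Perm (Fin n)) : cr σ τ 0 = 0 := by
  apply Finset.sum_eq_zero
  intro x _
  simp [chi]

lemma cr_top (σ τ : Equiv.Perm (Fin n)) : cr σ τ n = 0 := by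
  apply Finset.sum_eq_zero
  intro x _
  have : chi τ n x = 1 := by unfold chi; rw [if_pos (τ.symm x).isLt]
  rw [this]; ring

lemma cr_self (σ : Equiv.Perm (Fin n)) (u : ℕ) : cr σ σ u = 0 := by
  apply Finset.sum_eq_zero
  intro x _
  unfold chi
  split_ifs <;> norm_num

/-- bilinear expansion -/
lemma expand (p q : Fin n → ℤ) (a a' : Fin n) :
    ∑ x, (p x + if x = a then 1 else 0) * (1 - (q x + if x = a' then 1 else 0)) =
      ∑ x, p x * (1 - q x) - p a' + (1 - q a) - (if a = a' then 1 else 0) := by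
  have h1 : ∀ x, (p x + if x = a then 1 else 0) * (1 - (q x + if x = a' then 1 else 0)) =
      p x * (1 - q x) - (if x = a' then p x else 0) + (if x = a then (1 - q x) else 0) -
        (if x = a then (if x = a' then 1 else 0) else 0) := by
    intro x
    split_ifs <;> ring
  rw [Finset.sum_congr rfl (fun x _ => h1 x)]
  rw [Finset.sum_sub_distrib, Finset.sum_add_distrib, Finset.sum_sub_distrib]
  simp

/-- the relevant set of linear extensions -/
def LE (r : Fin n → Fin n → Prop) (σ : Equiv.Perm (Fin n)) : Prop :=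
  ∀ i j : Fin n, r (σ i) (σ j) → i ≤ j

lemma ideal {r : Fin n → Fin n → Prop} {σ : Equiv.Perm (Fin n)} (hσ : LE r σ) (u : ℕ)
    {a b : Fin n} (hab : r a b) : chi σ u b ≤ chi σ u a := by
  have h1 : σ.symm a ≤ σ.symm b := by
    apply hσ
    rw [Equiv.apply_symm_apply, Equiv.apply_symm_apply]; exact hab
  have h2 : (σ.symm a).val ≤ (σ.symm b).val := h1
  unfold chi
  split_ifs <;> first | omega | norm_num

lemma rel_of_not {r : Fin n → Fin n → Prop} {σ : Equiv.Perm (Fin n)} (hσ : LE r σ) {v : ℕ}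
    (h : v + 1 < n) (hn : ¬ LE r (σ * sw n v)) : r (σ ⟨v, by omega⟩) (σ ⟨v + 1, h⟩) := by
  by_contra hr
  apply hn
  intro i j hij
  rw [Equiv.Perm.mul_apply, Equiv.Perm.mul_apply] at hij
  have h1 := hσ _ _ hij
  rw [sw_eq h, Equiv.swap_apply_def, Equiv.swap_apply_def] at h1 hij
  by_contra hlt
  push Not at hlt
  have hlt' : j.val < i.val := hlt
  split_ifs at h1 hij with c1 c2 c3 c4 c5 c6 c7 <;>
    simp only [Fin.ext_iff, Fin.le_def, Fin.lt_def] at * <;>
    first
      | omega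
      | exact hr hij

end Pool.Agent.H281R2.Cond
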