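import Pool.Agent.H281R2.CondA

set_option autoImplicit false

namespace Pool.Agent.H281R2.Cond

open Finset

variable {n : ℕ}

open Classical in
/-- the move at the edge `v` -/
noncomputable def T (r : Fin n → Fin n → Prop) (v : ℕ) (σ : Equiv.Perm (Fin n)) :
    Equiv.Perm (Fin n) :=
  if LE r σ ∧ LE r (σ * sw n v) then σ * sw n v else σ

lemma T_cases (r : Fin n → Fin n → Prop) {v : ℕ} (h : v + 1 < n) {σ : Equiv.Perm (Fin n)}
    (hσ : LE r σ) :
    (T r v σ = σ * sw n v ∧ ¬ r (σ ⟨v, by omega⟩) (σ ⟨v + 1, h⟩)) ∨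
      (T r v σ = σ ∧ r (σ ⟨v, by omega⟩) (σ ⟨v + 1, h⟩)) := by
  unfold T
  by_cases h1 : LE r (σ * sw n v)
  · left; rw [if_pos ⟨hσ, h1⟩]
    refine ⟨rfl, fun hr => ?_⟩
    have h2 := h1 ⟨v + 1, h⟩ ⟨v, by omega⟩
    rw [Equiv.Perm.mul_apply, Equiv.Perm.mul_apply, sw_eq h, Equiv.swap_apply_left,
      Equiv.swap_apply_right] at h2
    have h3 := h2 hr
    rw [Fin.le_def] at h3
    simp at h3
  · right
    rw [if_neg (by tauto)]
    exact ⟨rfl, rel_of_not hσ h h1⟩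

lemma T_LE (r : Fin n → Fin n → Prop) (v : ℕ) {σ : Equiv.Perm (Fin n)}
    (hσ : LE r σ) : LE r (T r v σ) := by
  unfold T
  split_ifs with h
  · exact h.2
  · exact hσ

lemma T_of_not (r : Fin n → Fin n → Prop) (v : ℕ) {σ : Equiv.Perm (Fin n)}
    (hσ : ¬ LE r σ) : T r v σ = σ := by
  unfold T
  rw [if_neg (by tauto)]

lemma T_T (r : Fin n → Fin n → Prop) (v : ℕ) (σ : Equiv.Perm (Fin n)) :
    T r v (T r v σ) = σ := by
  by_cases h : LE r σ ∧ LE r (σ * sw n v)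
  · have h1 : T r v σ = σ * sw n v := by unfold T; rw [if_pos h]
    rw [h1]
    unfold T
    have h2 : σ * sw n v * sw n v = σ := by rw [mul_assoc, sw_mul_self, mul_one]
    rw [h2, if_pos ⟨h.2, h.1⟩]
  · have h1 : T r v σ = σ := by unfold T; rw [if_neg h]
    rw [h1, h1]

/-- crossing numbers away from the edge do not change -/
lemma cr_T_ne {v u : ℕ} (h : v + 1 < n) (hu : u ≠ v + 1)
    {σ τ : Equiv.Perm (Fin n)} (σ' τ' : Equiv.Perm (Fin n))
    (h1 : σ' = σ ∨ σ' = σ * sw n v) (h2 : τ' = τ ∨ τ' = τ * sw n v) :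
    cr σ' τ' u = cr σ τ u := by
  unfold cr
  apply Finset.sum_congr rfl
  intro x _
  have e1 : chi σ' u x = chi σ u x := by
    rcases h1 with rfl | rfl
    · rfl
    · exact chi_sw_ne h hu σ x
  have e2 : chi τ' u x = chi τ u x := by
    rcases h2 with rfl | rfl
    · rfl
    · exact chi_sw_ne h hu τ x
  rw [e1, e2]

/-- second difference of the crossing numbers -/
def lap (σ τ : Equiv.Perm (Fin n)) (v : ℕ) : ℤ := cr σ τ (v + 2) + cr σ τ v - 2 * cr σ τ (v + 1)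

/-- The local analysis at one edge. -/
lemma edge (r : Fin n → Fin n → Prop) {v : ℕ} (h : v + 1 < n) {σ τ : Equiv.Perm (Fin n)}
    (hσ : LE r σ) (hτ : LE r τ) :
    ((σ ⟨v, by omega⟩ = τ ⟨v, by omega⟩ ∨ σ ⟨v + 1, h⟩ = τ ⟨v + 1, h⟩) →
      cr (T r v σ) (T r v τ) (v + 1) - cr σ τ (v + 1) ≤ lap σ τ v ∧
      |cr (T r v σ) (T r v τ) (v + 1) - cr σ τ (v + 1)| ≤ 1) ∧
    (¬ (σ ⟨v, by omega⟩ = τ ⟨v, by omega⟩ ∨ σ ⟨v + 1, h⟩ = τ ⟨v + 1, h⟩) →
      (cr (T r v σ) τ (v + 1) - cr σ τ (v + 1)) + (cr σ (T r v τ) (v + 1) - cr σ τ (v + 1)) ≤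
        lap σ τ v ∧
      |cr (T r v σ) τ (v + 1) - cr σ τ (v + 1)| ≤ 1 ∧
      |cr σ (T r v τ) (v + 1) - cr σ τ (v + 1)| ≤ 1) := by
  have hv : v < n := by omega
  set a := σ ⟨v, hv⟩ with ha
  set b := σ ⟨v + 1, h⟩ with hb
  set a' := τ ⟨v, hv⟩ with ha'
  set b' := τ ⟨v + 1, h⟩ with hb'
  set p : Fin n → ℤ := chi σ v with hp
  set q : Fin n → ℤ := chi τ v with hq
  -- expansions
  have E0 : cr σ τ v = ∑ x, p x * (1 - q x) := rfl
  have E1 : cr σ τ (v + 1) = ∑ x, p x * (1 - q x) - p a' + (1 - q a) -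
      (if a = a' then 1 else 0) := by
    rw [← expand]
    unfold cr
    apply Finset.sum_congr rfl
    intro x _
    rw [chi_succ hv, chi_succ hv]
  have EX : cr (σ * sw n v) τ (v + 1) = ∑ x, p x * (1 - q x) - p a' + (1 - q b) -
      (if b = a' then 1 else 0) := by
    rw [← expand]
    unfold cr
    apply Finset.sum_congr rfl
    intro x _
    rw [chi_sw_eq h, chi_succ hv]
  have EY : cr σ (τ * sw n v) (v + 1) = ∑ x, p x * (1 - q x) - p b' + (1 - q a) -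
      (if a = b' then 1 else 0) := by
    rw [← expand]
    unfold cr
    apply Finset.sum_congr rfl
    intro x _
    rw [chi_sw_eq h, chi_succ hv]
  have EXY : cr (σ * sw n v) (τ * sw n v) (v + 1) = ∑ x, p x * (1 - q x) - p b' + (1 - q b) -
      (if b = b' then 1 else 0) := by
    rw [← expand]
    unfold cr
    apply Finset.sum_congr rfl
    intro x _
    rw [chi_sw_eq h, chi_sw_eq h]
  have E2 : cr σ τ (v + 2) = ∑ x, p x * (1 - q x) - p a' + (1 - q a) -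
      (if a = a' then 1 else 0) - (p b' + if b' = a then 1 else 0) +
      (1 - (q b + if b = a' then 1 else 0)) - (if b = b' then 1 else 0) := by
    rw [← expand]
    rw [← expand (fun x => p x + if x = a then 1 else 0) (fun x => q x + if x = a' then 1 else 0)]
    unfold cr
    apply Finset.sum_congr rfl
    intro x _
    rw [chi_succ h σ, chi_succ h τ, chi_succ hv σ, chi_succ hv τ]
  -- basic facts
  have hab : a ≠ b := by
    intro e
    have := σ.injective e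
    rw [Fin.ext_iff] at this
    simp at this
  have hab' : a' ≠ b' := by
    intro e
    have := τ.injective e
    rw [Fin.ext_iff] at this
    simp at this
  have pa : p a = 0 := by simp [hp, chi, ha]
  have pb : p b = 0 := by simp [hp, chi, hb]
  have qa : q a' = 0 := by simp [hq, chi, ha']
  have qb : q b' = 0 := by simp [hq, chi, hb']
  have p0 : ∀ x, 0 ≤ p x ∧ p x ≤ 1 := fun x => ⟨chi_nonneg _ _ _, chi_le_one _ _ _⟩
  have q0 : ∀ x, 0 ≤ q x ∧ q x ≤ 1 := fun x => ⟨chi_nonneg _ _ _, chi_le_one _ _ _⟩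
  -- consequences of a disallowed move
  have DX : r a b → q b ≤ q a ∧
      q b + (if b = a' then 1 else 0) ≤ q a + (if a = a' then 1 else 0) ∧
      q b + (if b = a' then 1 else 0) + (if b = b' then 1 else 0) ≤
        q a + (if a = a' then 1 else 0) + (if a = b' then 1 else 0) := by
    intro hr
    refine ⟨ideal hτ v hr, ?_, ?_⟩
    · have := ideal hτ (v + 1) hr
      rwa [chi_succ hv, chi_succ hv] at this
    · have := ideal hτ (v + 1 + 1) hr
      rwa [chi_succ h, chi_succ h, chi_succ hv, chi_succ hv] at this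
  have DY : r a' b' → p b' ≤ p a' ∧
      p b' + (if b' = a then 1 else 0) ≤ p a' + (if a' = a then 1 else 0) ∧
      p b' + (if b' = a then 1 else 0) + (if b' = b then 1 else 0) ≤
        p a' + (if a' = a then 1 else 0) + (if a' = b then 1 else 0) := by
    intro hr
    refine ⟨ideal hσ v hr, ?_, ?_⟩
    · have := ideal hσ (v + 1) hr
      rwa [chi_succ hv, chi_succ hv] at this
    · have := ideal hσ (v + 1 + 1) hr
      rwa [chi_succ h, chi_succ h, chi_succ hv, chi_succ hv] at this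
  have := p0 a'; have := p0 b'; have := q0 a; have := q0 b
  have e1 : (if a' = a then (1:ℤ) else 0) = if a = a' then 1 else 0 := by
    simp only [eq_comm]
  have e2 : (if b' = a then (1:ℤ) else 0) = if a = b' then 1 else 0 := by
    simp only [eq_comm]
  have e3 : (if a' = b then (1:ℤ) else 0) = if b = a' then 1 else 0 := by
    simp only [eq_comm]
  have e4 : (if b' = b then (1:ℤ) else 0) = if b = b' then 1 else 0 := by
    simp only [eq_comm]
  rw [e1, e2, e3, e4] at DY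
  rw [e2] at E2
  unfold lap
  rw [E2, E1, E0]
  have key1 : a = a' → p a' = 0 ∧ q a = 0 := by
    intro e; rw [← e, pa, e]; exact ⟨rfl, qa⟩
  have key2 : a = b' → p b' = 0 ∧ q a = 0 := by
    intro e; rw [← e, pa, e]; exact ⟨rfl, qb⟩
  have key3 : b = a' → p a' = 0 ∧ q b = 0 := by
    intro e; rw [← e, pb, e]; exact ⟨rfl, qa⟩
  have key4 : b = b' → p b' = 0 ∧ q b = 0 := by
    intro e; rw [← e, pb, e]; exact ⟨rfl, qb⟩
  obtain ⟨i1, hi1⟩ : ∃ i : ℤ, i = if a = a' then 1 else 0 := ⟨_, rfl⟩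
  obtain ⟨i2, hi2⟩ : ∃ i : ℤ, i = if a = b' then 1 else 0 := ⟨_, rfl⟩
  obtain ⟨i3, hi3⟩ : ∃ i : ℤ, i = if b = a' then 1 else 0 := ⟨_, rfl⟩
  obtain ⟨i4, hi4⟩ : ∃ i : ℤ, i = if b = b' then 1 else 0 := ⟨_, rfl⟩
  have K1 : (i1 = 0 ∧ a ≠ a') ∨ (i1 = 1 ∧ a = a' ∧ p a' = 0 ∧ q a = 0) := by
    by_cases c : a = a'
    · right; rw [hi1, if_pos c]; exact ⟨rfl, c, key1 c⟩
    · left; rw [hi1, if_neg c]; exact ⟨rfl, c⟩
  have K2 : (i2 = 0 ∧ a ≠ b') ∨ (i2 = 1 ∧ a = b' ∧ p b' = 0 ∧ q a = 0) := by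
    by_cases c : a = b'
    · right; rw [hi2, if_pos c]; exact ⟨rfl, c, key2 c⟩
    · left; rw [hi2, if_neg c]; exact ⟨rfl, c⟩
  have K3 : (i3 = 0 ∧ b ≠ a') ∨ (i3 = 1 ∧ b = a' ∧ p a' = 0 ∧ q b = 0) := by
    by_cases c : b = a'
    · right; rw [hi3, if_pos c]; exact ⟨rfl, c, key3 c⟩
    · left; rw [hi3, if_neg c]; exact ⟨rfl, c⟩
  have K4 : (i4 = 0 ∧ b ≠ b') ∨ (i4 = 1 ∧ b = b' ∧ p b' = 0 ∧ q b = 0) := by
    by_cases c : b = b'
    · right; rw [hi4, if_pos c]; exact ⟨rfl, c, key4 c⟩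
    · left; rw [hi4, if_neg c]; exact ⟨rfl, c⟩
  have N12 : i1 + i2 ≤ 1 := by
    rcases K1 with ⟨k, -⟩ | ⟨k, c, -⟩ <;> rcases K2 with ⟨l, -⟩ | ⟨l, d, -⟩ <;>
      first | omega | exact absurd (c.symm.trans d) hab'
  have N13 : i1 + i3 ≤ 1 := by
    rcases K1 with ⟨k, -⟩ | ⟨k, c, -⟩ <;> rcases K3 with ⟨l, -⟩ | ⟨l, d, -⟩ <;>
      first | omega | exact absurd (c.trans d.symm) hab
  have N42 : i4 + i2 ≤ 1 := by
    rcases K4 with ⟨k, -⟩ | ⟨k, c, -⟩ <;> rcases K2 with ⟨l, -⟩ | ⟨l, d, -⟩ <;>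
      first | omega | exact absurd (d.trans c.symm) hab
  have N43 : i4 + i3 ≤ 1 := by
    rcases K4 with ⟨k, -⟩ | ⟨k, c, -⟩ <;> rcases K3 with ⟨l, -⟩ | ⟨l, d, -⟩ <;>
      first | omega | exact absurd (d.symm.trans c) hab'
  have hcond : (a = a' ∨ b = b') ↔ (i1 = 1 ∨ i4 = 1) := by
    constructor
    · rintro (c | c)
      · left; rw [hi1, if_pos c]
      · right; rw [hi4, if_pos c]
    · rintro (c | c)
      · left; rcases K1 with ⟨k, -⟩ | ⟨k, c', -⟩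
        · omega
        · exact c'
      · right; rcases K4 with ⟨k, -⟩ | ⟨k, c', -⟩
        · omega
        · exact c'
  rw [hcond]
  rw [← hi1, ← hi2, ← hi3, ← hi4]
  rw [← hi1, ← hi2, ← hi3, ← hi4] at DX DY
  rw [← hi3] at EX
  rw [← hi2] at EY
  rw [← hi4] at EXY
  rw [← hi1] at E1
  have K1' : (i1 = 0) ∨ (i1 = 1 ∧ p a' = 0 ∧ q a = 0) := by
    rcases K1 with ⟨k, -⟩ | ⟨k, -, l⟩
    · exact Or.inl k
    · exact Or.inr ⟨k, l⟩
  have K2' : (i2 = 0) ∨ (i2 = 1 ∧ p b' = 0 ∧ q a = 0) := by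
    rcases K2 with ⟨k, -⟩ | ⟨k, -, l⟩
    · exact Or.inl k
    · exact Or.inr ⟨k, l⟩
  have K3' : (i3 = 0) ∨ (i3 = 1 ∧ p a' = 0 ∧ q b = 0) := by
    rcases K3 with ⟨k, -⟩ | ⟨k, -, l⟩
    · exact Or.inl k
    · exact Or.inr ⟨k, l⟩
  have K4' : (i4 = 0) ∨ (i4 = 1 ∧ p b' = 0 ∧ q b = 0) := by
    rcases K4 with ⟨k, -⟩ | ⟨k, -, l⟩
    · exact Or.inl k
    · exact Or.inr ⟨k, l⟩
  have same1 : i1 = 1 → a = a' := by
    intro k; rcases K1 with ⟨k', -⟩ | ⟨-, l, -⟩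
    · omega
    · exact l
  have same4 : i4 = 1 → b = b' := by
    intro k; rcases K4 with ⟨k', -⟩ | ⟨-, l, -⟩
    · omega
    · exact l
  clear K1 K2 K3 K4 hcond key1 key2 key3 key4 E0 E2 hi1 hi2 hi3 hi4 e1 e2 e3 e4
  have P1 := p0 a'; have P2 := p0 b'; have Q1 := q0 a; have Q2 := q0 b
  clear p0 q0
  generalize hs : ∑ x, p x * (1 - q x) = s at *
  generalize hpa : p a' = pa1 at *
  generalize hpb : p b' = pb1 at *
  generalize hqa : q a = qa1 at *
  generalize hqb : q b = qb1 at *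
  have same : i1 = 1 → i4 = 1 → (r a b ↔ r a' b') := by
    intro h1 h4
    rw [same1 h1, same4 h4]
  rcases T_cases r h hσ with ⟨hX, hrX⟩ | ⟨hX, hrX⟩ <;>
    rcases T_cases r h hτ with ⟨hY, hrY⟩ | ⟨hY, hrY⟩ <;> rw [hX, hY]
  · rw [EXY, EX, EY]
    refine ⟨fun hc => ⟨by omega, ?_⟩, fun hc => ⟨by omega, ?_, ?_⟩⟩ <;>
      rw [abs_le] <;> omega
  · have DY' := DY hrY
    have hs14 : ¬ (i1 = 1 ∧ i4 = 1) := fun h14 => hrX ((same h14.1 h14.2).mpr hrY)
    rw [EX, E1]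
    refine ⟨fun hc => ⟨by omega, ?_⟩, fun hc => ⟨by omega, ?_, ?_⟩⟩ <;>
      rw [abs_le] <;> omega
  · have DX' := DX hrX
    have hs14 : ¬ (i1 = 1 ∧ i4 = 1) := fun h14 => hrY ((same h14.1 h14.2).mp hrX)
    rw [EY, E1]
    refine ⟨fun hc => ⟨by omega, ?_⟩, fun hc => ⟨by omega, ?_, ?_⟩⟩ <;>
      rw [abs_le] <;> omega
  · have DX' := DX hrX
    have DY' := DY hrY
    rw [E1]
    refine ⟨fun hc => ⟨by omega, ?_⟩, fun hc => ⟨by omega, ?_, ?_⟩⟩ <;>
      rw [abs_le] <;> omega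

end Pool.Agent.H281R2.Cond
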