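import Pool.Agent.H281R2.CondB

set_option autoImplicit false

namespace Pool.Agent.H281R2.Cond

open Finset

variable {n : ℕ}

/-- weights -/
noncomputable def wt (n u : ℕ) : ℝ := 1 + (u : ℝ) * ((n : ℝ) - u) / (n : ℝ) ^ 2

lemma one_le_wt {u : ℕ} (hu : u ≤ n) : 1 ≤ wt n u := by
  unfold wt
  have h1 : (u : ℝ) ≤ n := by exact_mod_cast hu
  have : 0 ≤ (u : ℝ) * ((n : ℝ) - u) / (n : ℝ) ^ 2 := by
    apply div_nonneg
    · exact mul_nonneg (Nat.cast_nonneg _) (by linarith)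
    · positivity
  linarith

lemma wt_le_two {u : ℕ} (hu : u ≤ n) : wt n u ≤ 2 := by
  unfold wt
  have h1 : (u : ℝ) ≤ n := by exact_mod_cast hu
  have h0 : (0 : ℝ) ≤ u := Nat.cast_nonneg _
  have : (u : ℝ) * ((n : ℝ) - u) / (n : ℝ) ^ 2 ≤ 1 := by
    apply div_le_one_of_le₀
    · nlinarith
    · positivity
  linarith

lemma wt_zero : wt n 0 = 1 := by simp [wt]

lemma wt_lap (hn : 0 < n) (v : ℕ) : wt n (v + 2) + wt n v - 2 * wt n (v + 1) = -2 / (n : ℝ) ^ 2 := by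
  unfold wt
  have : (n : ℝ) ≠ 0 := by exact_mod_cast hn.ne'
  push_cast
  field_simp
  ring

/-- weighted total crossing number -/
noncomputable def S (σ τ : Equiv.Perm (Fin n)) : ℝ :=
  ∑ u ∈ range (n + 1), wt n u * (cr σ τ u : ℝ)

/-- the concave profile -/
noncomputable def F (n : ℕ) (s : ℝ) : ℝ :=
  n * s + (((n : ℝ) + 2) ^ 2 - (max ((n : ℝ) + 2 - s) 0) ^ 2)

/-- its derivative -/
noncomputable def Fd (n : ℕ) (s : ℝ) : ℝ := n + 2 * max ((n : ℝ) + 2 - s) 0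

lemma Fd_ge (s : ℝ) : (n : ℝ) ≤ Fd n s := by
  unfold Fd
  have := le_max_right ((n : ℝ) + 2 - s) 0
  linarith

lemma F_concave (s δ : ℝ) : F n (s + δ) - F n s ≤ Fd n s * δ := by
  unfold F Fd
  have key : (max ((n : ℝ) + 2 - s) 0) ^ 2 - 2 * max ((n : ℝ) + 2 - s) 0 * δ ≤
      (max ((n : ℝ) + 2 - (s + δ)) 0) ^ 2 := by
    rcases le_total ((n : ℝ) + 2 - s) 0 with h | h
    · rw [max_eq_right h]
      have : 0 ≤ (max ((n : ℝ) + 2 - (s + δ)) 0) ^ 2 := sq_nonneg _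
      linarith
    · rw [max_eq_left h]
      rcases le_total ((n : ℝ) + 2 - (s + δ)) 0 with h' | h'
      · rw [max_eq_right h']
        nlinarith
      · rw [max_eq_left h']
        nlinarith [sq_nonneg δ]
  linarith

lemma F_quad {s δ : ℝ} (hs : s ≤ n) (hδ : δ ≤ 2) :
    F n (s + δ) - F n s = Fd n s * δ - δ ^ 2 := by
  unfold F Fd
  rw [max_eq_left (by linarith : (0 : ℝ) ≤ (n : ℝ) + 2 - s),
    max_eq_left (by linarith : (0 : ℝ) ≤ (n : ℝ) + 2 - (s + δ))]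
  ring

lemma F_step {s : ℝ} {u : ℕ} (hu : u ≤ n) {j : ℤ} (hj : |j| ≤ 1) :
    F n (s + wt n u * j) - F n s ≤ Fd n s * (wt n u * j) -
      (if s ≤ n then ((j ^ 2 : ℤ) : ℝ) else 0) := by
  have h1 := one_le_wt hu
  have h2 := wt_le_two hu
  have hj' := abs_le.mp hj
  have hj1 : ((j : ℤ) : ℝ) ≤ 1 := by exact_mod_cast hj'.2
  have hj0 : (-1 : ℝ) ≤ ((j : ℤ) : ℝ) := by exact_mod_cast hj'.1
  split_ifs with h
  · rw [F_quad h (by nlinarith)]
    push_cast
    have : ((j : ℝ)) ^ 2 ≤ (wt n u * j) ^ 2 := by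
      rw [mul_pow]
      have : 1 ≤ (wt n u) ^ 2 := by nlinarith
      nlinarith [sq_nonneg (j : ℝ)]
    linarith
  · have := F_concave (n := n) s (wt n u * j)
    linarith

/-- the Lyapunov function -/
noncomputable def Psi (σ τ : Equiv.Perm (Fin n)) : ℝ := F n (S σ τ)

lemma S_self (σ : Equiv.Perm (Fin n)) : S σ σ = 0 := by
  unfold S
  apply Finset.sum_eq_zero
  intro u _
  rw [cr_self]; simp

lemma S_nonneg (σ τ : Equiv.Perm (Fin n)) : 0 ≤ S σ τ := by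
  unfold S
  apply Finset.sum_nonneg
  intro u hu
  have h1 := one_le_wt (n := n) (u := u) (by rw [mem_range] at hu; omega)
  have h2 : (0 : ℝ) ≤ cr σ τ u := by exact_mod_cast cr_nonneg σ τ u
  exact mul_nonneg (by linarith) h2

lemma F_zero : F n 0 = 0 := by
  unfold F
  have h : (0 : ℝ) ≤ (n : ℝ) + 2 - 0 := by
    have := Nat.cast_nonneg (α := ℝ) n
    linarith
  rw [max_eq_left h]
  ring

lemma F_nonneg {s : ℝ} (hs : 0 ≤ s) : 0 ≤ F n s := by
  unfold F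
  have h1 : max ((n : ℝ) + 2 - s) 0 ≤ (n : ℝ) + 2 := max_le (by linarith) (by positivity)
  have h2 : 0 ≤ max ((n : ℝ) + 2 - s) 0 := le_max_right _ _
  have h3 : 0 ≤ (n : ℝ) * s := mul_nonneg (Nat.cast_nonneg _) hs
  nlinarith

lemma Psi_self (σ : Equiv.Perm (Fin n)) : Psi σ σ = 0 := by
  unfold Psi; rw [S_self, F_zero]

lemma Psi_nonneg (σ τ : Equiv.Perm (Fin n)) : 0 ≤ Psi σ τ := F_nonneg (S_nonneg σ τ)

lemma S_move {v : ℕ} (h : v + 1 < n) {σ τ : Equiv.Perm (Fin n)} (σ' τ' : Equiv.Perm (Fin n))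
    (h1 : σ' = σ ∨ σ' = σ * sw n v) (h2 : τ' = τ ∨ τ' = τ * sw n v) :
    S σ' τ' = S σ τ + wt n (v + 1) * ((cr σ' τ' (v + 1) - cr σ τ (v + 1) : ℤ) : ℝ) := by
  unfold S
  have hm : v + 1 ∈ range (n + 1) := by rw [mem_range]; omega
  rw [← Finset.add_sum_erase _ _ hm, ← Finset.add_sum_erase _ _ hm]
  have : ∑ u ∈ (range (n + 1)).erase (v + 1), wt n u * (cr σ' τ' u : ℝ) =
      ∑ u ∈ (range (n + 1)).erase (v + 1), wt n u * (cr σ τ u : ℝ) := by
    apply Finset.sum_congr rfl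
    intro u hu
    rw [cr_T_ne h (Finset.ne_of_mem_erase hu) σ' τ' h1 h2]
  rw [this]
  push_cast
  ring

/-- the coupled generator at one edge, applied to a function of two variables -/
noncomputable def G (r : Fin n → Fin n → Prop) (u : Equiv.Perm (Fin n) → Equiv.Perm (Fin n) → ℝ)
    (σ τ : Equiv.Perm (Fin n)) (v : ℕ) (h : v + 1 < n) : ℝ :=
  if σ ⟨v, by omega⟩ = τ ⟨v, by omega⟩ ∨ σ ⟨v + 1, h⟩ = τ ⟨v + 1, h⟩ then
    u (T r v σ) (T r v τ) - u σ τ
  else (u (T r v σ) τ - u σ τ) + (u σ (T r v τ) - u σ τ)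

lemma T_or (r : Fin n → Fin n → Prop) (v : ℕ) (σ : Equiv.Perm (Fin n)) :
    T r v σ = σ ∨ T r v σ = σ * sw n v := by
  unfold T
  split_ifs
  · right; rfl
  · left; rfl

lemma G_le (r : Fin n → Fin n → Prop) {v : ℕ} (h : v + 1 < n) {σ τ : Equiv.Perm (Fin n)}
    (hσ : LE r σ) (hτ : LE r τ) :
    G r Psi σ τ v h ≤ Fd n (S σ τ) * (wt n (v + 1) * (lap σ τ v : ℝ)) -
      (if S σ τ ≤ n ∧ lap σ τ v < 0 then 1 else 0) := by
  have hu : v + 1 ≤ n := by omega
  have hF : 0 ≤ Fd n (S σ τ) * wt n (v + 1) :=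
    mul_nonneg ((Nat.cast_nonneg n).trans (Fd_ge _)) (by linarith [one_le_wt hu])
  obtain ⟨e1, e2⟩ := edge r h hσ hτ
  unfold G
  split_ifs with hc hd hd
  · obtain ⟨a1, a2⟩ := e1 hc
    unfold Psi
    rw [S_move h _ _ (T_or r v σ) (T_or r v τ)]
    set j := cr (T r v σ) (T r v τ) (v + 1) - cr σ τ (v + 1) with hj
    have s1 := F_step (s := S σ τ) hu a2
    rw [if_pos hd.1] at s1
    have s2 : (j : ℝ) ≤ (lap σ τ v : ℝ) := by exact_mod_cast a1
    have s3 : (1 : ℤ) ≤ j ^ 2 := by nlinarith [hd.2]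
    have s3' : (1 : ℝ) ≤ ((j ^ 2 : ℤ) : ℝ) := by exact_mod_cast s3
    nlinarith [mul_le_mul_of_nonneg_left s2 hF]
  · obtain ⟨a1, a2⟩ := e1 hc
    unfold Psi
    rw [S_move h _ _ (T_or r v σ) (T_or r v τ)]
    set j := cr (T r v σ) (T r v τ) (v + 1) - cr σ τ (v + 1) with hj
    have s1 := F_step (s := S σ τ) hu a2
    have s2 : (j : ℝ) ≤ (lap σ τ v : ℝ) := by exact_mod_cast a1
    have s3' : (0 : ℝ) ≤ (if S σ τ ≤ n then ((j ^ 2 : ℤ) : ℝ) else 0) := by
      split_ifs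
      · exact_mod_cast sq_nonneg j
      · exact le_rfl
    nlinarith [mul_le_mul_of_nonneg_left s2 hF]
  · obtain ⟨a1, a2, a3⟩ := e2 hc
    unfold Psi
    rw [S_move h _ τ (T_or r v σ) (Or.inl rfl), S_move h σ _ (Or.inl rfl) (T_or r v τ)]
    set j := cr (T r v σ) τ (v + 1) - cr σ τ (v + 1) with hj
    set k := cr σ (T r v τ) (v + 1) - cr σ τ (v + 1) with hk
    have s1 := F_step (s := S σ τ) hu a2
    have t1 := F_step (s := S σ τ) hu a3
    rw [if_pos hd.1] at s1 t1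
    have s2 : (j : ℝ) + k ≤ (lap σ τ v : ℝ) := by exact_mod_cast a1
    have s3 : (1 : ℤ) ≤ j ^ 2 + k ^ 2 := by
      have : j < 0 ∨ k < 0 := by
        by_contra hcon
        push Not at hcon
        omega
      rcases this with h' | h'
      · nlinarith [sq_nonneg k]
      · nlinarith [sq_nonneg j]
    have s3' : (1 : ℝ) ≤ ((j ^ 2 : ℤ) : ℝ) + ((k ^ 2 : ℤ) : ℝ) := by exact_mod_cast s3
    nlinarith [mul_le_mul_of_nonneg_left s2 hF]
  · obtain ⟨a1, a2, a3⟩ := e2 hc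
    unfold Psi
    rw [S_move h _ τ (T_or r v σ) (Or.inl rfl), S_move h σ _ (Or.inl rfl) (T_or r v τ)]
    set j := cr (T r v σ) τ (v + 1) - cr σ τ (v + 1) with hj
    set k := cr σ (T r v τ) (v + 1) - cr σ τ (v + 1) with hk
    have s1 := F_step (s := S σ τ) hu a2
    have t1 := F_step (s := S σ τ) hu a3
    have s2 : (j : ℝ) + k ≤ (lap σ τ v : ℝ) := by exact_mod_cast a1
    have s3' : (0 : ℝ) ≤ (if S σ τ ≤ n then ((j ^ 2 : ℤ) : ℝ) else 0) := by
      split_ifs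
      · exact_mod_cast sq_nonneg j
      · exact le_rfl
    have t3' : (0 : ℝ) ≤ (if S σ τ ≤ n then ((k ^ 2 : ℤ) : ℝ) else 0) := by
      split_ifs
      · exact_mod_cast sq_nonneg k
      · exact le_rfl
    nlinarith [mul_le_mul_of_nonneg_left s2 hF]

/-- summation by parts -/
lemma parts (w C : ℕ → ℝ) (m : ℕ) :
    ∑ v ∈ range m, (w (v + 1) * (C (v + 2) + C v - 2 * C (v + 1))) =
      ∑ v ∈ range m, (C (v + 1) * (w (v + 2) + w v - 2 * w (v + 1))) +
        ((w m * C (m + 1) - w (m + 1) * C m) - (w 0 * C 1 - w 1 * C 0)) := by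
  have h := Finset.sum_range_sub (fun v => w v * C (v + 1) - w (v + 1) * C v) m
  rw [← h, ← Finset.sum_add_distrib]
  apply Finset.sum_congr rfl
  intro v _
  ring

lemma sum_lap (hn : 0 < n) (σ τ : Equiv.Perm (Fin n)) :
    ∑ v ∈ range (n - 1), wt n (v + 1) * (lap σ τ v : ℝ) ≤
      -2 / (n : ℝ) ^ 2 * ∑ v ∈ range (n - 1), (cr σ τ (v + 1) : ℝ) := by
  have h := parts (wt n) (fun u => (cr σ τ u : ℝ)) (n - 1)
  have e1 : ∑ v ∈ range (n - 1), wt n (v + 1) * (lap σ τ v : ℝ) =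
      ∑ v ∈ range (n - 1), (wt n (v + 1) *
        ((cr σ τ (v + 2) : ℝ) + cr σ τ v - 2 * cr σ τ (v + 1))) := by
    apply Finset.sum_congr rfl
    intro v _
    unfold lap
    push_cast
    ring
  have e2 : n - 1 + 1 = n := by omega
  rw [e1]
  rw [h, e2, cr_top, cr_zero, Finset.mul_sum]
  have e3 : ∑ v ∈ range (n - 1), (cr σ τ (v + 1) : ℝ) *
      (wt n (v + 2) + wt n v - 2 * wt n (v + 1)) =
      ∑ v ∈ range (n - 1), -2 / (n : ℝ) ^ 2 * (cr σ τ (v + 1) : ℝ) := by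
    apply Finset.sum_congr rfl
    intro v _
    rw [wt_lap hn]; ring
  rw [e3]
  have c1 : (0 : ℝ) ≤ cr σ τ 1 := by exact_mod_cast cr_nonneg σ τ 1
  have c2 : (0 : ℝ) ≤ cr σ τ (n - 1) := by exact_mod_cast cr_nonneg σ τ (n - 1)
  have w1 := one_le_wt (n := n) (u := n) le_rfl
  rw [wt_zero]
  push_cast
  nlinarith [mul_nonneg (by linarith : (0 : ℝ) ≤ wt n n) c2]

lemma exists_crossing {σ τ : Equiv.Perm (Fin n)} (hne : σ ≠ τ) :
    ∃ v, v + 1 < n ∧ 1 ≤ cr σ τ (v + 1) := by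
  have h1 : ∃ x, (σ.symm x).val < (τ.symm x).val := by
    by_contra hcon
    push Not at hcon
    apply hne
    have e1 : ∑ x, (τ.symm x).val = ∑ x, (σ.symm x).val := by
      rw [Equiv.sum_comp τ.symm (fun i : Fin n => i.val), Equiv.sum_comp σ.symm (fun i : Fin n => i.val)]
    have e2 := (Finset.sum_eq_sum_iff_of_le (fun x _ => hcon x)).mp e1
    have e3 : σ.symm = τ.symm := by
      ext x
      exact (e2 x (mem_univ x)).symm
    have e4 := congrArg Equiv.symm e3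
    simpa using e4
  obtain ⟨x, hx⟩ := h1
  refine ⟨(σ.symm x).val, by have := (τ.symm x).isLt; omega, ?_⟩
  have h2 : chi σ ((σ.symm x).val + 1) x * (1 - chi τ ((σ.symm x).val + 1) x) = 1 := by
    unfold chi
    rw [if_pos (by omega), if_neg (by omega)]
    norm_num
  rw [← h2]
  unfold cr
  exact Finset.single_le_sum (f := fun x_1 => chi σ ((σ.symm x).val + 1) x_1 *
    (1 - chi τ ((σ.symm x).val + 1) x_1))
    (fun y _ => mul_nonneg (chi_nonneg _ _ _) (by linarith [chi_le_one τ ((σ.symm x).val + 1) y]))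
    (mem_univ x)

/-- The Lyapunov inequality for the coupled chain. -/
theorem lyapunov (r : Fin n → Fin n → Prop) {σ τ : Equiv.Perm (Fin n)}
    (hσ : LE r σ) (hτ : LE r τ) (hne : σ ≠ τ) :
    ∑ v ∈ range (n - 1), (if h : v + 1 < n then G r Psi σ τ v h else 0) ≤ -1 := by
  obtain ⟨v0, hv0, hc0⟩ := exists_crossing hne
  have hn : 0 < n := by omega
  have hn' : (0 : ℝ) < n := by exact_mod_cast hn
  have hC1 : (1 : ℝ) ≤ ∑ v ∈ range (n - 1), (cr σ τ (v + 1) : ℝ) := by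
    have h1 : (1 : ℝ) ≤ (cr σ τ (v0 + 1) : ℝ) := by exact_mod_cast hc0
    refine h1.trans ?_
    exact Finset.single_le_sum (f := fun v => (cr σ τ (v + 1) : ℝ))
      (fun v _ => by exact_mod_cast cr_nonneg σ τ (v + 1)) (by rw [mem_range]; omega)
  have hsl := sum_lap hn σ τ
  have hneg : ∃ v ∈ range (n - 1), lap σ τ v < 0 := by
    by_contra hcon
    push Not at hcon
    have h1 : 0 ≤ ∑ v ∈ range (n - 1), wt n (v + 1) * (lap σ τ v : ℝ) := by
      apply Finset.sum_nonneg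
      intro v hv
      have := hcon v hv
      have h2 := one_le_wt (n := n) (u := v + 1) (by rw [mem_range] at hv; omega)
      exact mul_nonneg (by linarith) (by exact_mod_cast this)
    have h3 : -2 / (n : ℝ) ^ 2 * ∑ v ∈ range (n - 1), (cr σ τ (v + 1) : ℝ) < 0 := by
      apply mul_neg_of_neg_of_pos
      · apply div_neg_of_neg_of_pos <;> [norm_num; positivity]
      · linarith
    linarith
  have hS : S σ τ ≤ 2 * ∑ v ∈ range (n - 1), (cr σ τ (v + 1) : ℝ) := by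
    unfold S
    rw [Finset.sum_range_succ, cr_top]
    have e2 : ∀ (f : ℕ → ℝ) (m : ℕ), 0 < m → f 0 = 0 →
        ∑ u ∈ range m, f u = ∑ u ∈ range (m - 1), f (u + 1) := by
      intro f m hm h0
      obtain ⟨k, rfl⟩ : ∃ k, m = k + 1 := ⟨m - 1, by omega⟩
      rw [Finset.sum_range_succ', h0, add_zero, Nat.add_sub_cancel]
    have e3 : ∑ u ∈ range n, wt n u * (cr σ τ u : ℝ) =
        ∑ u ∈ range (n - 1), wt n (u + 1) * (cr σ τ (u + 1) : ℝ) :=
      e2 (fun u => wt n u * (cr σ τ u : ℝ)) n hn (by simp [cr_zero])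
    rw [e3, Finset.mul_sum]
    push_cast
    rw [mul_zero, add_zero]
    apply Finset.sum_le_sum
    intro v hv
    have h2 := wt_le_two (n := n) (u := v + 1) (by rw [mem_range] at hv; omega)
    have h3 : (0 : ℝ) ≤ cr σ τ (v + 1) := by exact_mod_cast cr_nonneg σ τ (v + 1)
    exact mul_le_mul_of_nonneg_right h2 h3
  have hsum : ∑ v ∈ range (n - 1), (if h : v + 1 < n then G r Psi σ τ v h else 0) ≤
      ∑ v ∈ range (n - 1), (Fd n (S σ τ) * (wt n (v + 1) * (lap σ τ v : ℝ)) -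
        (if S σ τ ≤ n ∧ lap σ τ v < 0 then 1 else 0)) := by
    apply Finset.sum_le_sum
    intro v hv
    have h1 : v + 1 < n := by rw [mem_range] at hv; omega
    rw [dif_pos h1]
    exact G_le r h1 hσ hτ
  refine hsum.trans ?_
  rw [Finset.sum_sub_distrib, ← Finset.mul_sum]
  have hFd := Fd_ge (n := n) (S σ τ)
  have hx : -2 / (n : ℝ) ^ 2 * ∑ v ∈ range (n - 1), (cr σ τ (v + 1) : ℝ) ≤ 0 := by
    apply mul_nonpos_of_nonpos_of_nonneg
    · apply div_nonpos_of_nonpos_of_nonneg <;> [norm_num; positivity]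
    · linarith
  by_cases hSn : S σ τ ≤ n
  · obtain ⟨v1, hv1, hl1⟩ := hneg
    have h1 : (1 : ℝ) ≤ ∑ v ∈ range (n - 1), (if S σ τ ≤ n ∧ lap σ τ v < 0 then (1 : ℝ) else 0) := by
      have h2 : (if S σ τ ≤ n ∧ lap σ τ v1 < 0 then (1 : ℝ) else 0) = 1 := if_pos ⟨hSn, hl1⟩
      refine le_of_eq_of_le h2.symm ?_
      exact Finset.single_le_sum (f := fun v => (if S σ τ ≤ n ∧ lap σ τ v < 0 then (1 : ℝ) else 0))
        (fun v _ => by split_ifs <;> norm_num) hv1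
    have h3 : Fd n (S σ τ) * ∑ v ∈ range (n - 1), wt n (v + 1) * (lap σ τ v : ℝ) ≤ 0 := by
      apply mul_nonpos_of_nonneg_of_nonpos
      · linarith
      · linarith
    linarith
  · have h1 : (0 : ℝ) ≤ ∑ v ∈ range (n - 1), (if S σ τ ≤ n ∧ lap σ τ v < 0 then (1 : ℝ) else 0) :=
      Finset.sum_nonneg (fun v _ => by split_ifs <;> norm_num)
    push Not at hSn
    have h2 : -2 / (n : ℝ) ^ 2 * ∑ v ∈ range (n - 1), (cr σ τ (v + 1) : ℝ) ≤ -1 / n := by
      have h4 : (n : ℝ) / 2 ≤ ∑ v ∈ range (n - 1), (cr σ τ (v + 1) : ℝ) := by linarith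
      have h5 : -2 / (n : ℝ) ^ 2 * ∑ v ∈ range (n - 1), (cr σ τ (v + 1) : ℝ) ≤
          -2 / (n : ℝ) ^ 2 * ((n : ℝ) / 2) := by
        apply mul_le_mul_of_nonpos_left h4
        apply div_nonpos_of_nonpos_of_nonneg <;> [norm_num; positivity]
      refine h5.trans (le_of_eq ?_)
      field_simp
    have h3 : Fd n (S σ τ) * ∑ v ∈ range (n - 1), wt n (v + 1) * (lap σ τ v : ℝ) ≤
        Fd n (S σ τ) * (-1 / n) :=
      mul_le_mul_of_nonneg_left (hsl.trans h2) (by linarith)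
    have h4 : Fd n (S σ τ) * (-1 / n) ≤ n * (-1 / n) := by
      apply mul_le_mul_of_nonpos_right hFd
      apply div_nonpos_of_nonpos_of_nonneg <;> [norm_num; positivity]
    have h5 : (n : ℝ) * (-1 / n) = -1 := by field_simp
    linarith

end Pool.Agent.H281R2.Cond
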