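import Pool.Agent.H281R2.CondC

set_option autoImplicit false

namespace Pool.Agent.H281R2.Cond

open Finset

variable {n : ℕ}

/-- the generator of the chain (all allowed swaps at rate one) -/
noncomputable def L (r : Fin n → Fin n → Prop) (h : Equiv.Perm (Fin n) → ℝ)
    (σ : Equiv.Perm (Fin n)) : ℝ :=
  ∑ v ∈ range (n - 1), (h (T r v σ) - h σ)

lemma G_marginal (r : Fin n → Fin n → Prop) (h : Equiv.Perm (Fin n) → ℝ)
    (σ τ : Equiv.Perm (Fin n)) (v : ℕ) (hv : v + 1 < n) :
    G r (fun a b => h a - h b) σ τ v hv = (h (T r v σ) - h σ) - (h (T r v τ) - h τ) := by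
  unfold G
  split_ifs <;> ring

lemma G_sub (r : Fin n → Fin n → Prop) (u w : Equiv.Perm (Fin n) → Equiv.Perm (Fin n) → ℝ)
    (σ τ : Equiv.Perm (Fin n)) (v : ℕ) (hv : v + 1 < n) :
    G r (fun a b => u a b - w a b) σ τ v hv = G r u σ τ v hv - G r w σ τ v hv := by
  unfold G
  split_ifs <;> ring

/-- the maximum principle -/
theorem lipschitz (r : Fin n → Fin n → Prop) {ε : ℝ} (hε : 0 < ε)
    (h g : Equiv.Perm (Fin n) → ℝ)
    (heq : ∀ σ, LE r σ → ε * h σ - L r h σ = g σ)
    (hg : ∀ σ τ, g σ - g τ ≤ 1) :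
    ∀ σ τ, LE r σ → LE r τ → h σ - h τ ≤ Psi σ τ := by
  classical
  by_contra hcon
  push Not at hcon
  obtain ⟨σ0, τ0, hσ0, hτ0, hlt0⟩ := hcon
  obtain ⟨⟨σ, τ⟩, hm, hmax⟩ := Finset.exists_max_image
    (univ.filter (fun q : Equiv.Perm (Fin n) × Equiv.Perm (Fin n) => LE r q.1 ∧ LE r q.2))
    (fun q => h q.1 - h q.2 - Psi q.1 q.2) ⟨(σ0, τ0), by simp [hσ0, hτ0]⟩
  simp only [mem_filter, mem_univ, true_and] at hm hmax
  obtain ⟨hσ, hτ⟩ := hm
  have hpos : 0 < h σ - h τ - Psi σ τ := by
    have := hmax (σ0, τ0) ⟨hσ0, hτ0⟩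
    simp only at this
    linarith
  have hne : σ ≠ τ := by
    rintro rfl
    rw [Psi_self] at hpos
    linarith
  have hly := lyapunov r hσ hτ hne
  have hle : ∀ v (hv : v + 1 < n), G r (fun a b => (h a - h b) - Psi a b) σ τ v hv ≤ 0 := by
    intro v hv
    have m1 := hmax (T r v σ, T r v τ) ⟨T_LE r v hσ, T_LE r v hτ⟩
    have m2 := hmax (T r v σ, τ) ⟨T_LE r v hσ, hτ⟩
    have m3 := hmax (σ, T r v τ) ⟨hσ, T_LE r v hτ⟩
    simp only at m1 m2 m3
    unfold G
    split_ifs <;> linarith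
  have hsum : ∑ v ∈ range (n - 1), ((h (T r v σ) - h σ) - (h (T r v τ) - h τ)) ≤
      ∑ v ∈ range (n - 1), (if hv : v + 1 < n then G r Psi σ τ v hv else 0) := by
    apply Finset.sum_le_sum
    intro v hv
    have h1 : v + 1 < n := by rw [mem_range] at hv; omega
    rw [dif_pos h1]
    have h2 := hle v h1
    rw [G_sub r (fun a b => h a - h b) Psi, G_marginal] at h2
    linarith
  rw [Finset.sum_sub_distrib] at hsum
  have e1 := heq σ hσ
  have e2 := heq τ hτ
  unfold L at e1 e2
  have e3 := hg σ τ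
  have e4 := Psi_nonneg σ τ
  have e5 : 0 < ε * (h σ - h τ) := mul_pos hε (by linarith)
  nlinarith

/-- the resolvent equation is solvable -/
theorem resolvent (r : Fin n → Fin n → Prop) {ε : ℝ} (hε : 0 < ε)
    (g : Equiv.Perm (Fin n) → ℝ) :
    ∃ h : Equiv.Perm (Fin n) → ℝ, ∀ σ, ε * h σ - L r h σ = g σ := by
  classical
  let Φ : (Equiv.Perm (Fin n) → ℝ) →ₗ[ℝ] (Equiv.Perm (Fin n) → ℝ) :=
    { toFun := fun h σ => ε * h σ - L r h σ
      map_add' := by
        intro x y
        funext σ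
        simp only [L, Pi.add_apply]
        have : ∑ v ∈ range (n - 1), (x (T r v σ) + y (T r v σ) - (x σ + y σ)) =
            ∑ v ∈ range (n - 1), (x (T r v σ) - x σ) + ∑ v ∈ range (n - 1), (y (T r v σ) - y σ) := by
          rw [← Finset.sum_add_distrib]
          exact Finset.sum_congr rfl fun v _ => by ring
        rw [this]
        ring
      map_smul' := by
        intro c x
        funext σ
        simp only [L, Pi.smul_apply, smul_eq_mul, RingHom.id_apply]
        have : ∑ v ∈ range (n - 1), (c * x (T r v σ) - c * x σ) =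
            c * ∑ v ∈ range (n - 1), (x (T r v σ) - x σ) := by
          rw [Finset.mul_sum]
          exact Finset.sum_congr rfl fun v _ => by ring
        rw [this]
        ring }
  have hup : ∀ f : Equiv.Perm (Fin n) → ℝ, (∀ σ, ε * f σ - L r f σ = 0) → ∀ σ, f σ ≤ 0 := by
    intro f hf σ
    obtain ⟨ρ, -, hρ⟩ := Finset.exists_max_image (univ : Finset (Equiv.Perm (Fin n))) f ⟨1, mem_univ _⟩
    have h1 := hf ρ
    have h2 : L r f ρ ≤ 0 := by
      unfold L
      apply Finset.sum_nonpos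
      intro v _
      have := hρ (T r v ρ) (mem_univ _)
      linarith
    have h3 : f ρ ≤ 0 := by
      by_contra hcon
      push Not at hcon
      have := mul_pos hε hcon
      linarith
    exact (hρ σ (mem_univ _)).trans h3
  have hinj : Function.Injective Φ := by
    rw [← LinearMap.ker_eq_bot, LinearMap.ker_eq_bot']
    intro f hf
    have h1 : ∀ σ, ε * f σ - L r f σ = 0 := fun σ => congrFun hf σ
    have h2 : ∀ σ, ε * (-f) σ - L r (-f) σ = 0 := by
      have h3 : Φ (-f) = 0 := by rw [map_neg, hf, neg_zero]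
      exact fun σ => congrFun h3 σ
    funext σ
    have a1 := hup f h1 σ
    have a2 := hup (-f) h2 σ
    simp only [Pi.neg_apply] at a2
    simp only [Pi.zero_apply]
    linarith
  have hsurj : Function.Surjective Φ := (LinearMap.injective_iff_surjective).mp hinj
  obtain ⟨h, hh⟩ := hsurj g
  exact ⟨h, fun σ => congrFun hh σ⟩

lemma sum_A (r : Fin n → Fin n → Prop) (h : Equiv.Perm (Fin n) → ℝ)
    (A : Finset (Equiv.Perm (Fin n))) :
    ∑ σ ∈ A, -L r h σ = ∑ v ∈ range (n - 1),
      ∑ σ ∈ A.filter (fun σ => T r v σ ∉ A), (h σ - h (T r v σ)) := by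
  classical
  unfold L
  simp only [← Finset.sum_neg_distrib, neg_sub]
  rw [Finset.sum_comm]
  apply Finset.sum_congr rfl
  intro v _
  rw [← Finset.sum_filter_add_sum_filter_not A (fun σ => T r v σ ∉ A)]
  have h0 : ∑ σ ∈ A.filter (fun σ => ¬ T r v σ ∉ A), (h σ - h (T r v σ)) = 0 := by
    apply Finset.sum_involution (fun σ _ => T r v σ)
    · intro σ _
      rw [T_T]; ring
    · intro σ _ hne heq
      apply hne
      rw [heq]; ring
    · intro σ hσ
      simp only [mem_filter, not_not] at hσ ⊢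
      exact ⟨hσ.2, by rw [T_T]; exact hσ.1⟩
    · intro σ _
      exact T_T r v σ
  rw [h0, add_zero]

lemma Psi_adj {v : ℕ} (h : v + 1 < n) (σ : Equiv.Perm (Fin n)) :
    Psi σ (σ * sw n v) ≤ 14 * n := by
  have hv : v < n := by omega
  have hc : cr σ (σ * sw n v) (v + 1) = 1 := by
    have h1 := expand (chi σ v) (chi σ v) (σ ⟨v, hv⟩) (σ ⟨v + 1, h⟩)
    have h2 : cr σ (σ * sw n v) (v + 1) = ∑ x, (chi σ v x + if x = σ ⟨v, hv⟩ then 1 else 0) *
        (1 - (chi σ v x + if x = σ ⟨v + 1, h⟩ then 1 else 0)) := by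
      unfold cr
      apply Finset.sum_congr rfl
      intro x _
      rw [chi_sw_eq h, chi_succ hv]
    have h3 : ∑ x, chi σ v x * (1 - chi σ v x) = 0 := cr_self σ v
    have h4 : chi σ v (σ ⟨v + 1, h⟩) = 0 := by simp [chi]
    have h5 : chi σ v (σ ⟨v, hv⟩) = 0 := by simp [chi]
    have h6 : σ ⟨v, hv⟩ ≠ σ ⟨v + 1, h⟩ := by
      intro e
      have := σ.injective e
      rw [Fin.ext_iff] at this
      simp at this
    rw [h2, h1, h3, h4, h5, if_neg h6]
    norm_num
  have hS : S σ (σ * sw n v) = wt n (v + 1) := by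
    have := S_move h (σ := σ) (τ := σ) σ (σ * sw n v) (Or.inl rfl) (Or.inr rfl)
    rw [this, S_self, hc, cr_self]
    norm_num
  have hn : (1 : ℝ) ≤ n := by
    have : 1 ≤ n := by omega
    exact_mod_cast this
  have h1 := one_le_wt (n := n) (u := v + 1) (by omega)
  have h2 := wt_le_two (n := n) (u := v + 1) (by omega)
  unfold Psi F
  rw [hS, max_eq_left (by linarith)]
  nlinarith

/-- The isoperimetric inequality. -/
theorem main (n : ℕ) (r : Fin n → Fin n → Prop)
    (E : Finset (Equiv.Perm (Fin n)))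
    (hE : ∀ σ : Equiv.Perm (Fin n), σ ∈ E ↔ ∀ i j : Fin n, r (σ i) (σ j) → i ≤ j)
    (A : Finset (Equiv.Perm (Fin n))) (hAE : A ⊆ E) (hA : A.Nonempty)
    (hcard : 2 * A.card ≤ E.card) :
      (1 / 28 : ℝ) * (A.card : ℝ) ≤ (n : ℝ) *
        (((A ×ˢ (E \ A)).filter
          (fun p : Equiv.Perm (Fin n) × Equiv.Perm (Fin n) =>
            ∃ i j : Fin n, j.val = i.val + 1 ∧ p.2 = p.1 * Equiv.swap i j)).card : ℝ) := by
  classical
  have hEL : ∀ σ, σ ∈ E ↔ LE r σ := hE
  set D := (A ×ˢ (E \ A)).filter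
          (fun p : Equiv.Perm (Fin n) × Equiv.Perm (Fin n) =>
            ∃ i j : Fin n, j.val = i.val + 1 ∧ p.2 = p.1 * Equiv.swap i j) with hD
  have hApos : 0 < A.card := hA.card_pos
  have hEpos : 0 < E.card := by omega
  have hA' : (0 : ℝ) < A.card := by exact_mod_cast hApos
  have hE' : (0 : ℝ) < E.card := by exact_mod_cast hEpos
  have hcard' : 2 * (A.card : ℝ) ≤ E.card := by exact_mod_cast hcard
  -- number of boundary edges
  have hcount : ∑ v ∈ range (n - 1), ((A.filter (fun σ => T r v σ ∉ A)).card : ℝ) ≤ D.card := by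
    rw [← Nat.cast_sum, ← Finset.card_sigma]
    have : ((range (n - 1)).sigma (fun v => A.filter (fun σ => T r v σ ∉ A))).card ≤ D.card := by
      apply Finset.card_le_card_of_injOn (fun q => (q.2, q.2 * sw n q.1))
      · rintro ⟨v, σ⟩ hq
        simp only [coe_sigma, Set.mem_sigma_iff, mem_coe, mem_range, mem_filter] at hq
        obtain ⟨hv, hσA, hT⟩ := hq
        have h1 : v + 1 < n := by omega
        have hσE := (hEL σ).mp (hAE hσA)
        rcases T_cases r h1 hσE with ⟨h2, -⟩ | ⟨h2, -⟩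
        · rw [h2] at hT
          simp only [hD, coe_filter, mem_product, mem_sdiff, Set.mem_ofPred_eq]
          refine ⟨⟨hσA, ?_, hT⟩, ⟨v, by omega⟩, ⟨v + 1, h1⟩, rfl, by rw [sw_eq h1]⟩
          rw [hEL, ← h2]
          exact T_LE r v hσE
        · rw [h2] at hT
          exact absurd hσA hT
      · rintro ⟨v, σ⟩ hq ⟨v', σ'⟩ hq' heq
        simp only [coe_sigma, Set.mem_sigma_iff, mem_coe, mem_range, mem_filter] at hq hq'
        simp only [Prod.mk.injEq] at heq
        obtain ⟨h1, h2⟩ := heq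
        subst h1
        have h3 := mul_left_cancel h2
        have hv : v + 1 < n := by omega
        have hv' : v' + 1 < n := by omega
        have h4 : v = v' := by
          rw [sw_eq hv, sw_eq hv'] at h3
          have h5 := congrArg (fun f : Equiv.Perm (Fin n) => (f ⟨v, by omega⟩).val) h3
          simp only [Equiv.swap_apply_left] at h5
          have h6 := congrArg (fun f : Equiv.Perm (Fin n) => (f ⟨v', by omega⟩).val) h3
          simp only [Equiv.swap_apply_left] at h6
          rw [Equiv.swap_apply_def] at h5 h6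
          split_ifs at h5 h6 <;> simp only [Fin.ext_iff] at * <;> omega
        subst h4
        rfl
    exact_mod_cast this
  -- the constant
  set B : ℝ := ∑ σ ∈ E, ∑ τ ∈ E, Psi σ τ with hB
  have hB0 : 0 ≤ B := Finset.sum_nonneg fun σ _ => Finset.sum_nonneg fun τ _ => Psi_nonneg σ τ
  have key : ∀ ε : ℝ, 0 < ε → (A.card : ℝ) / 2 ≤ 14 * n * D.card + ε * (A.card * B) := by
    intro ε hε
    set g : Equiv.Perm (Fin n) → ℝ := fun σ => (if σ ∈ A then 1 else 0) - (A.card : ℝ) / E.card
      with hg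
    obtain ⟨h, hh⟩ := resolvent r hε g
    have hlip := lipschitz r hε h g (fun σ _ => hh σ) (by
      intro σ τ
      simp only [hg]
      split_ifs <;> linarith)
    have hgE : ∑ σ ∈ E, g σ = 0 := by
      simp only [hg]
      rw [Finset.sum_sub_distrib, Finset.sum_const, nsmul_eq_mul, Finset.sum_ite_mem,
        Finset.inter_eq_right.mpr hAE]
      simp only [Finset.sum_const, nsmul_eq_mul, mul_one]
      field_simp
      ring
    have hLE : ∑ σ ∈ E, -L r h σ = 0 := by
      rw [sum_A]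
      apply Finset.sum_eq_zero
      intro v _
      apply Finset.sum_eq_zero
      intro σ hσ
      rw [mem_filter] at hσ
      exact absurd ((hEL _).mpr (T_LE r v ((hEL σ).mp hσ.1))) hσ.2
    have hhE : ∑ σ ∈ E, h σ = 0 := by
      have h1 : ∑ σ ∈ E, (ε * h σ - L r h σ) = 0 := by
        rw [Finset.sum_congr rfl (fun σ _ => hh σ), hgE]
      have h2 : ε * ∑ σ ∈ E, h σ + ∑ σ ∈ E, -L r h σ = 0 := by
        rw [← h1, Finset.mul_sum, ← Finset.sum_add_distrib]
        exact Finset.sum_congr rfl fun σ _ => by ring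
      rw [hLE, add_zero] at h2
      exact (mul_eq_zero.mp h2).resolve_left hε.ne'
    have hhB : ∀ σ ∈ E, h σ ≤ B := by
      intro σ hσ
      have h1 : (E.card : ℝ) * h σ = ∑ τ ∈ E, (h σ - h τ) := by
        rw [Finset.sum_sub_distrib, hhE, Finset.sum_const, nsmul_eq_mul, sub_zero]
      have h2 : ∑ τ ∈ E, (h σ - h τ) ≤ ∑ τ ∈ E, Psi σ τ :=
        Finset.sum_le_sum fun τ hτ => hlip σ τ ((hEL σ).mp hσ) ((hEL τ).mp hτ)
      have h3 : ∑ τ ∈ E, Psi σ τ ≤ B :=
        Finset.single_le_sum (f := fun σ => ∑ τ ∈ E, Psi σ τ)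
          (fun ρ _ => Finset.sum_nonneg fun τ _ => Psi_nonneg ρ τ) hσ
      have h4 : (1 : ℝ) ≤ E.card := by exact_mod_cast hEpos
      by_contra hcon
      push Not at hcon
      have h5 : 0 < h σ := lt_of_le_of_lt hB0 hcon
      nlinarith
    have hgA : (A.card : ℝ) / 2 ≤ ∑ σ ∈ A, g σ := by
      simp only [hg]
      rw [Finset.sum_sub_distrib, Finset.sum_const, nsmul_eq_mul, Finset.sum_ite_mem,
        Finset.inter_self]
      simp only [Finset.sum_const, nsmul_eq_mul, mul_one]
      have h1 : (A.card : ℝ) / E.card ≤ 1 / 2 := by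
        rw [div_le_div_iff₀ hE' (by norm_num)]
        linarith
      nlinarith
    have hLA : ∑ σ ∈ A, -L r h σ ≤ 14 * n * D.card := by
      rw [sum_A]
      have h1 : ∀ v ∈ range (n - 1),
          ∑ σ ∈ A.filter (fun σ => T r v σ ∉ A), (h σ - h (T r v σ)) ≤
          (14 * n) * ((A.filter (fun σ => T r v σ ∉ A)).card : ℝ) := by
        intro v hv
        have hv' : v + 1 < n := by rw [mem_range] at hv; omega
        have h2 : ∀ σ ∈ A.filter (fun σ => T r v σ ∉ A), (h σ - h (T r v σ)) ≤ 14 * n := by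
          intro σ hσ
          rw [mem_filter] at hσ
          have hσE := (hEL σ).mp (hAE hσ.1)
          rcases T_cases r hv' hσE with ⟨h2, -⟩ | ⟨h2, -⟩
          · have h3 := hlip σ (T r v σ) hσE (T_LE r v hσE)
            rw [h2] at h3 ⊢
            exact h3.trans (Psi_adj hv' σ)
          · rw [h2] at hσ
            exact absurd hσ.1 hσ.2
        calc _ ≤ ∑ σ ∈ A.filter (fun σ => T r v σ ∉ A), (14 * n : ℝ) := Finset.sum_le_sum h2
          _ = _ := by rw [Finset.sum_const, nsmul_eq_mul]; ring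
      refine (Finset.sum_le_sum h1).trans ?_
      rw [← Finset.mul_sum]
      exact mul_le_mul_of_nonneg_left hcount (by positivity)
    have hfin : ∑ σ ∈ A, g σ = ε * ∑ σ ∈ A, h σ + ∑ σ ∈ A, -L r h σ := by
      rw [Finset.mul_sum, ← Finset.sum_add_distrib]
      exact Finset.sum_congr rfl fun σ _ => by rw [← hh σ]; ring
    have hAh : ∑ σ ∈ A, h σ ≤ A.card * B := by
      calc ∑ σ ∈ A, h σ ≤ ∑ σ ∈ A, B := Finset.sum_le_sum fun σ hσ => hhB σ (hAE hσ)
        _ = A.card * B := by rw [Finset.sum_const, nsmul_eq_mul]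
    have := mul_le_mul_of_nonneg_left hAh hε.le
    linarith
  have hfinal : (A.card : ℝ) / 2 ≤ 14 * n * D.card := by
    apply le_of_forall_pos_le_add
    intro δ hδ
    have h1 : 0 < (A.card : ℝ) * B + 1 := by positivity
    have h2 := key (δ / (A.card * B + 1)) (div_pos hδ h1)
    have h3 : δ / (A.card * B + 1) * (A.card * B) ≤ δ := by
      rw [div_mul_eq_mul_div, div_le_iff₀ h1]
      nlinarith
    linarith
  linarith

end Pool.Agent.H281R2.Cond
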